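import Pool.Agent.H435.CP.Maps

/-!
MP_464c42_nt, Q1: the conjecture of Campana for generic C-pairs over all finitely generated domains
over an algebraically closed field.

Let `K` be an algebraically closed field of characteristic `0`, and let `k` be a field contained in
`K`, with algebraic closure `k'` in `K`. Let `V` be a closed subset of the projective `n`-space over
`k'`, of dimension at most `m`, and let `F_a`, for `a` in a finite set `A`, be generic forms of
degrees `d_a` (`Generic`: the ratios of their coefficients are algebraically independent over `k`; for
instance `k = ℚ`, `K = ℂ` and very general forms). Let `C` be a subset of `A`, for example empty. We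
consider the C-pair `(X, Δ)`,

`X = V ∩ {F_c = 0, c ∈ C}`,   `Δ = ∑_{a ∉ C} (1 - 1 / m_a) D_a`,   `D_a = {F_a = 0}`,

with multiplicities `m_a ≥ 1` which are rational numbers or infinite; `w_a = 1 / m_a`. For instance
`X` is the projective space and `V` is all of it, `m = n`. Suppose that

`∑_{c ∈ C} (d_c + 1) + ∑_{a ∉ C} (1 - 1 / m_a) d_a > 2 m + 1`.

(1) Integral points (`FiniteCampana`). Let `k'[T]` be a domain generated by a finite set `T` over `k'`,
of any dimension, such that the `F_a` are defined over its field of fractions `R`. Then `X` has only
finitely many `R`-valued points outside of the `D_a` which satisfy the condition of Campana at all the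
divisors `Q` of (the normalization of) `Spec k'[T]`, that is, which are integral points of `(X, Δ)`
over `k'[T]`. We only need the condition in the weak form (`CampanaAt 1`): if `v_a` is the multiplicity
of the intersection with `D_a` at `Q`, and if the `v_a` are not all `0`, then `∑ v_a / m_a ≥ 1`. It is
implied by the condition that each `v_a` is `0` or at least `m_a` (`classical` below).

(2) Maps of C-pairs (`MapsGeneral`). Every C-pair `(Y, Δ_Y)` of dimension at least `1` over `K` with a
generically finite map of C-pairs to `(X, Δ)`, the image of which is not in a `D_a`, is of general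
type. In particular the subvarieties of `X` which are not in a `D_a` are of general type, with the
structure of a C-pair induced by `Δ`. The C-pair `(Y, Δ_Y)` is given by the function field `L` of `Y`
and the coefficients `c Q` of the prime divisors `Q` in `Δ_Y` (one can take `c Q = 1` for the
exceptional divisors `Q`, with a centre of higher codimension on a smooth model `Y` on which the
divisor `Δ_Y` has normal crossings). The map is a map of C-pairs if `∑ v_a / m_a ≥ 1 - c Q` for the
multiplicities `v_a` at `Q`, if they are not all `0`.

So both the arithmetic and the geometric exceptional set of `(X, Δ)` are contained in the union of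
the `D_a`, in accordance with the conjecture; these C-pairs are of general type if the `D_a` have
normal crossings.

The result (1) does not assume that the points lift to a fixed covering of `X` or that they are
integral with respect to a divisor. In the proof, the limits of sequences of points (in an
ultrapower of `K`) are studied by derivations dual to the coefficients of the forms. The condition of
Campana holds for the limits only at those places of the field of a limit that are moved by one of
these derivations (`Pool.Agent.H435.CP.mov_cond`). At the other places all the derivations are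
logarithmic, and the condition is not needed.
-/

set_option autoImplicit false

namespace Pool.Agent.Results.MP_464c42_nt.GenericCPairs

open MvPolynomial FF Pool.Agent.N126.RC Pool.Agent.TH145.MG Pool.Agent.H435.CP

theorem result {k K : Type} [Field k] [Field K] [IsAlgClosed K] [CharZero K] [Algebra k K]
    {n m : ℕ}
    -- a closed subset of projective space, of dimension at most `m`
    (V : Set (MvPolynomial (Fin (n + 1)) (algebraicClosure k K)))
    (hVh : ∀ f ∈ V, ∃ e, f.IsHomogeneous e) (hV : DimLE (algebraicClosure k K) V m)
    -- generic forms
    {A : Type} [Fintype A] [DecidableEq A] (d : A → ℕ) (F : A → MvPolynomial (Fin (n + 1)) K)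
    (hF : Generic k d F)
    -- the multiplicities `1 / w a`
    (C : Finset A) (w : A → ℚ) (hw : ∀ a, 0 ≤ w a)
    (hd : (2 * m + 1 : ℚ) < ∑ a ∈ C, ((d a : ℚ) + 1) + ∑ a ∈ Cᶜ, (d a : ℚ) * (1 - w a)) :
    FiniteCampana (algebraicClosure k K) V F C w ∧ MapsGeneral V F C w :=
  ⟨finite_campana V hVh hV F hF C w hw hd, maps_general V hVh hV F hF C w hw hd⟩

/-- The case of the points `x` with the classical condition of Campana: all the multiplicities of the
intersections with the `D_a` are `0` or at least `m a`. The multiplicity `m a = ∞` is written as `0`
(and `1 / 0 = 0`). -/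
theorem classical {k K : Type} [Field k] [Field K] [IsAlgClosed K] [CharZero K] [Algebra k K]
    {n : ℕ} {A : Type} [Fintype A] [DecidableEq A] (d : A → ℕ)
    (F : A → MvPolynomial (Fin (n + 1)) K) (hF : Generic k d F) (m : A → ℕ)
    (hd : (2 * n + 1 : ℚ) < ∑ a, (d a : ℚ) * (1 - 1 / m a))
    -- the field of fractions of `k'[T]`, over which the forms are defined
    (R : IntermediateField (algebraicClosure k K) K) (T : Finset R)
    (hT : IntermediateField.adjoin (algebraicClosure k K) (T : Set R) = ⊤)
    (G : A → MvPolynomial (Fin (n + 1)) R) (hG : ∀ a, map (algebraMap R K) (G a) = F a) :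
    ∃ S : Finset (Fin (n + 1) → R), ∀ x : Fin (n + 1) → R, x ≠ 0 → (∀ a, eval x (G a) ≠ 0) →
      (∀ Q : Place (algebraicClosure k K) R, IsDiv (algebraicClosure k K) (T : Set R) Q →
        ∀ l, x l ≠ 0 → (∀ j, Q.Reg (x j / x l)) → ∀ a,
          Q.ord (eval (fun j => x j / x l) (G a)) = 0 ∨
          (m a ≠ 0 ∧ (m a : ℤ) ≤ Q.ord (eval (fun j => x j / x l) (G a)))) →
      ∃ s ∈ S, ∃ t : R, x = t • s := by
  have hV : DimLE (algebraicClosure k K) (∅ : Set (MvPolynomial (Fin (n + 1)) _)) n :=
    Pool.Agent.TH145.GC.dimLE_univ _ n
  obtain ⟨S, hS⟩ := (result ∅ (by simp) hV d F hF ∅ (fun a => 1 / m a) (fun a => by positivity)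
    (by
      rw [Finset.sum_empty, zero_add, Finset.compl_empty]
      exact hd)).1 R T hT G hG
  refine ⟨S, fun x hx hxG hxQ => hS x hx (by simp) (by simp) (fun a _ => hxG a) fun Q hQ => ?_⟩
  intro l hl hreg hpos
  have h1 := hxQ Q hQ l hl hreg
  obtain ⟨a, ha, hpa⟩ := hpos
  have hnn : ∀ b ∈ (∅ : Finset A)ᶜ, 0 ≤ 1 / (m b : ℚ) *
      (Q.ord (eval (fun j => x j / x l) (G b)) : ℚ) := by
    intro b _
    refine mul_nonneg (by positivity) ?_
    rcases h1 b with h2 | ⟨-, h2⟩
    · rw [h2]; simp
    · exact_mod_cast (Int.natCast_nonneg _).trans h2
  refine le_trans ?_ (Finset.single_le_sum hnn ha)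
  rcases h1 a with h2 | ⟨h2, h3⟩
  · omega
  · have h4 : (0 : ℚ) < m a := by exact_mod_cast Nat.pos_of_ne_zero h2
    have h5 : (m a : ℚ) ≤ (Q.ord (eval (fun j => x j / x l) (G a)) : ℚ) := by exact_mod_cast h3
    rw [one_div, inv_mul_eq_div, le_div_iff₀ h4, one_mul]
    exact h5

end Pool.Agent.Results.MP_464c42_nt.GenericCPairs
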